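import Pool.Agent.NPG.StmtsD

/-!
# Row RST of squad NPY: restriction to the copy of `G × Fin 2`
-/

set_option autoImplicit false

open MeasureTheory Set Topology

namespace Pool.Agent.NPY.H3

open Pool.Agent.LSG Pool.Agent.NPY

/-- restriction to the copy of `G × Fin 2` -/
theorem rst : RstStmt := by
  intro G Z _ _ ι hι hS
  obtain ⟨T, hT, hs⟩ := hS
  let _ := TopologicalSpace.metrizableSpaceMetric Z
  have hQ : Continuous fun p : G × Fin 2 =>
      (if p.2 = 0 then Sum.inl (ι p.1) else Sum.inr (ι p.1) : Z ⊕ Z) := by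
    rw [continuous_prod_of_discrete_right]
    intro b
    by_cases hb : b = 0
    · simp only [hb, if_true]
      exact continuous_inl.comp hι.continuous
    · simp only [hb, if_false]
      exact continuous_inr.comp hι.continuous
  set q : C(↥(univ : Set (G × Fin 2)), Z ⊕ Z) :=
    ⟨fun w => (if w.1.2 = 0 then Sum.inl (ι w.1.1) else Sum.inr (ι w.1.1) : Z ⊕ Z),
      hQ.comp continuous_subtype_val⟩ with hq
  refine ⟨⟨⟨fun f => (T f).comp q, fun f g => by rw [map_add]; rfl⟩,
    fun a f => by simp only [map_smul, RingHom.id_apply]; rfl⟩, ?_, ?_⟩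
  · refine continuous_pi fun w => ?_
    exact (continuous_apply (q w)).comp hT
  · intro g
    obtain ⟨f0, h0⟩ := ContinuousMap.exists_extension hι
      (⟨fun x => g ⟨(x, 0), mem_univ _⟩, g.continuous.comp
        ((Continuous.prodMk continuous_id continuous_const).subtype_mk _)⟩ : C(G, ℝ))
    obtain ⟨f1, h1⟩ := ContinuousMap.exists_extension hι
      (⟨fun x => g ⟨(x, 1), mem_univ _⟩, g.continuous.comp
        ((Continuous.prodMk continuous_id continuous_const).subtype_mk _)⟩ : C(G, ℝ))
    obtain ⟨f, hf⟩ := hs (⟨Sum.elim f0 f1, f0.continuous.sumElim f1.continuous⟩ : C(Z ⊕ Z, ℝ))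
    refine ⟨f, ?_⟩
    ext w
    show (T f) (q w) = g w
    rw [hf]
    obtain ⟨⟨x, i⟩, hw⟩ := w
    have e0 := DFunLike.congr_fun h0 x
    have e1 := DFunLike.congr_fun h1 x
    fin_cases i
    · exact e0
    · exact e1

end Pool.Agent.NPY.H3
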